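import Pool.Agent.U724.NT.Dual

/-!
# MP_15b3df_nt: the law for the kernels and cokernels of the regulators of all powers of a variety

Let `X` be a smooth projective variety over `ℚ` of dimension `e`, `q ≥ 2` and `j` integers, and for
`n ≥ 0` let

`r (n) : H_ℳ^(2 (j + n e) - q)(X ^ (2 n), ℚ(j + n e))_ℤ ⊗ ℝ ⟶ H_𝒟^(2 (j + n e) - q)(X ^ (2 n)/ℝ, ℝ(j + n e))`

be the regulator on the integral part. This is the regulator of the question for the variety
`X ^ (2 n)`, with `i = 2 (j + n e) - q - 1` and `m = j + n e - q`, so that `i - 2 m = q - 1 ≥ 1` is
fixed and so is the distance `j` of the weight from the middle. Let `ρ (n)` be the rank of the group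
of the algebraic cycles of middle codimension `n e` on `X ^ (2 n)` modulo numerical equivalence and
`b` the sum of the Betti numbers of `X`. Assume that `X` satisfies the sign conjecture (known for
curves, surfaces, abelian varieties, complete intersections and their products).

Theorem. (1) `dim ker r (n) / ρ (n)` and `dim coker r (n) / ρ (n)` converge, for `n → ∞`, to elements
`A` and `B` of `{0, 1, 2, …} ∪ {∞}`. All regulators `r (n)` are injective if and only if `A = 0`, and
surjective if and only if `B = 0`. Hence: **Beilinson's conjecture Q1 holds for all `r (n)` if and
only if `dim ker r (n) + dim coker r (n) ≤ c ρ (n)` for infinitely many `n` and a constant `c < 1`.**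

(2) **One bad power makes all large powers bad, with an exponential defect:** if `r (m)` is not
bijective then for all `n ≥ 128 (m + 1) ^ 2 b ^ (4 m + 12)`

`dim ker r (n) + dim coker r (n) ≥ b ^ (2 n) / (2 (n + 1) ^ (b ^ 2))`.

So a single inequality, for one explicit `n`, implies Q1 for `r (m)`.

(3) If `A` is finite then all the groups `H_ℳ(X ^ (2 n))_ℤ ⊗ ℝ` above are finite-dimensional, there
are finitely many numerical motives `S ≠ 0` of total Betti number `A` such that
`dim ker r (n) = ∑_S dim Hom (S, h(X ^ (2 n))(n e))` for all `n`, and homologically trivial
correspondences act in a nilpotent way on the integral motivic cohomology: each composition of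
`A + 1` homologically trivial correspondences (of degree `0`, between the twisted powers of `X × X`)
acts as zero. If `B` is finite then there is a similar formula for `dim coker r (n)`, and every
composition of `B` numerically trivial correspondences maps the Deligne cohomology of a power into
the image of the regulator.

The setting. `C` is the category of the Chow motives over `ℚ` with real coefficients (morphisms are
the correspondences of degree `0`, Tate twists are allowed), a rigid symmetric monoidal category,
`T = h(X)` and `T ⊗ Tᘁ = h(X × X)(e)`, so that `(T ⊗ Tᘁ) ^ n = h(X ^ (2 n))(n e)`; `T` may be any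
Chow motive of nonzero rank which satisfies the sign conjecture, for example a direct summand
`h ^ i(X)`. `Λ = ℝ`, and `R` is the singular cohomology with complex coefficients. The integral part
of the motivic cohomology of weight `j` is an additive functor `M` on `C` (Beilinson, Scholl),
Deligne cohomology is an additive functor `D` on which homologically trivial correspondences act as
zero, and the regulator is a natural transformation `r : M ⟶ D`. With all correspondences, of
arbitrary degree, as morphisms of `C` the theorem is a statement about all weights together, the
regulator on `K_q(X ^ (2 n))_ℤ ⊗ ℝ`. The theorem is proved for all categories, functors and natural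
transformations of this kind.

Idea of the proof. The law of the ratios for one additive functor, its explicit form and the
structure of the functors with a finite limit (files `N64/AF`) are applied to the kernel and the
cokernel of `r`. A homologically trivial correspondence `u` acts as zero on `D`, so that it maps `M`
to the kernel of `r`, which is annihilated by compositions of `A` numerically trivial
correspondences.
-/

set_option autoImplicit false

open CategoryTheory MonoidalCategory Module
open Pool.Agent.Y112.SR Pool.Agent.Y112.KD Pool.Agent.N64.AF Pool.Agent.U724.NT

namespace Pool.Agent.Results.MP_15b3df_nt.LawForRegulators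

universe v u w t x

/-- The law for the kernels and cokernels of the regulators of the powers of `X × X`. -/
theorem result {C : Type u} [Category.{v} C] [Preadditive C] [MonoidalCategory C]
    [MonoidalPreadditive C] [SymmetricCategory C] [RightRigidCategory C]
    {Λ : Type t} [Field Λ] [CharZero Λ] [Linear Λ C] [MonoidalLinear Λ C]
    {K : Type w} [Field K] [IsAlgClosed K] [Algebra Λ K] (R : SuperRealisation C K)
    (hR : IsReal Λ R) (T : C) (hT : R.CPlus T) (hb : 0 < bt R T)
    (M D : C ⥤ ModuleCat.{x} Λ) [M.Additive] [M.Linear Λ] [D.Additive] [D.Linear Λ] (r : M ⟶ D)
    (hfin : ∀ n, Module.Finite Λ (D.obj (tp (T ⊗ Tᘁ) n)))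
    (hhom : ∀ (a b : ℕ) (u : tp (T ⊗ Tᘁ) a ⟶ tp (T ⊗ Tᘁ) b), R.H.map u = 0 → D.map u = 0) :
    (∃ A B : ℕ∞, NatLaw R (T ⊗ Tᘁ) r A B) ∧
    ∀ m n : ℕ, ¬ Function.Bijective (r.app (tp (T ⊗ Tᘁ) m)).hom →
      128 * (m + 1) ^ 2 * bt R T ^ (4 * m + 12) ≤ n →
      ((bt R T ^ (2 * n) : ℕ) : ℕ∞) ≤ (2 * (n + 1) ^ (bt R T ^ 2) : ℕ) *
        (kerDim (T ⊗ Tᘁ) r n + cokerDim (T ⊗ Tᘁ) r n) :=
  dual_nat_law hR hT hb M D r hfin hhom

end Pool.Agent.Results.MP_15b3df_nt.LawForRegulators
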