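import Pool.Agent.U317.UV.CloReg

/-!
# Beilinson's regulators in weights above the dimension and systems of bilinear equations

We fix an integer `w < 0`. For a separated scheme `𝒳` of finite type over `ℤ` and `m ∈ ℤ` let `T m 𝒳` be
the following object: the rational vector space `M = CH_w(𝒳, m) ⊗ ℚ = K'_m(𝒳)^{(w)}` (motivic
Borel-Moore homology), the real vector space `H = H^{BM}_{m+2w-1}(𝒳(ℂ), ℝ(w))`, the involution `F = F_∞`
of `H` (complex conjugation on `𝒳(ℂ)` and on the coefficients) and the regulator `r : M ⊗ ℝ → H`, whose
values are fixed by `F`.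

If `𝒳` is regular, flat and proper over `ℤ` with generic fibre `X`, and `n = dim X + 1 - w` (so `n ≥ dim X + 2`;
all weights `n ≥ dim X + 2` arise in this way), then `M = H^{2n-m}_M(𝒳, ℚ(n))`; moreover
`H^F = H^{2n-m-1}(X(ℂ), ℝ(n-1))^{F_∞}` is the real Deligne–Beilinson cohomology group
`H^{i+1}_D(X/ℝ, ℝ(n))` for `i = 2n - m - 1`, since `F^n H^i_{dR}(X) = 0`. `G m 𝒳` is the group
`H^{i+1}_M(X, ℚ(n))` of the generic fibre, `res : M → G m 𝒳` is the restriction, its image is the integral
part `H^{i+1}_M(X, ℚ(n))_ℤ`, and `reg` is Beilinson's regulator `r_D` of `X`.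
-/

set_option autoImplicit false

open CategoryTheory AlgebraicGeometry Pool.Agent.Y116.UV Pool.Agent.Z125.UN Pool.Agent.Q193.LT
  Pool.Agent.Q282.UK Pool.Agent.Q282.UZ Pool.Agent.U317.UV
open scoped TensorProduct

namespace Pool.Agent.Results.MP_15b3df_nt.RegulatorsAboveDimension

/-- The motivic groups `M`, the real groups `H` with `F_∞`, the regulators `r` (all in `T m 𝒳`), the
motivic groups `G m 𝒳` of the generic fibre, the restriction `res` and the regulator `reg` of the generic
fibre; `r` is the composition of `res` and `reg`. -/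
structure Groups where
  /-- the groups of the arithmetic scheme and the real groups -/
  T : ℤ → Sch ℤ → Obj ℝ
  /-- the motivic groups of the generic fibre -/
  G : ℤ → Sch ℤ → ModuleCat.{0} ℚ
  /-- restriction to the generic fibre -/
  res : ∀ m X, (T m X).M →ₗ[ℚ] G m X
  /-- the regulator of the generic fibre -/
  reg : ∀ m X, (ℝ ⊗[ℚ] G m X) →ₗ[ℝ] (T m X).H
  fac : ∀ m X x, reg m X ((res m X).baseChange ℝ x) = (T m X).r x

/-- The integral part `im(res)` of the motivic group of the generic fibre. -/
def intPart (D : Groups) (m : ℤ) (X : Sch ℤ) : Submodule ℚ (D.G m X) := LinearMap.range (D.res m X)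

/-- The regulator on the integral part, with real coefficients. -/
noncomputable def regInt (D : Groups) (m : ℤ) (X : Sch ℤ) :
    (ℝ ⊗[ℚ] intPart D m X) →ₗ[ℝ] (D.T m X).H :=
  D.reg m X ∘ₗ (intPart D m X).subtype.baseChange ℝ

/-- **Beilinson's statement (Q1)** for the generic fibre of `X` in degree `m`: the integral part is
finite-dimensional, and the regulator maps it, with real coefficients, isomorphically onto `H^F`. -/
def Beilinson (D : Groups) (m : ℤ) (X : Sch ℤ) : Prop :=
  Module.Finite ℚ (intPart D m X) ∧ Function.Injective (regInt D m X) ∧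
    LinearMap.range (regInt D m X) = LinearMap.ker ((D.T m X).F - 1)

/-- The regulator of `X` itself in degree `m` is an isomorphism from `M ⊗ ℝ` onto `H^F`. -/
def RegIso (D : Groups) (m : ℤ) (X : Sch ℤ) : Prop :=
  Function.Injective (D.T m X).r ∧ LinearMap.range (D.T m X).r = LinearMap.ker ((D.T m X).F - 1)

/-- The scheme `X` is integral, regular and proper over `ℤ`. -/
structure RegularProper (X : Sch ℤ) : Prop where
  ft : FT True X
  proper : IsProper X.hom
  integral : IsIntegral X.left
  regular : ∀ x : X.left, IsRegularLocalRing (X.left.presheaf.stalk x)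

/-- the shift of the degree by `-1` -/
def shiftDown : ℤ ≃ ℤ where
  toFun m := m - 1
  invFun m := m + 1
  left_inv m := by ring
  right_inv m := by ring

/-- Known properties of the groups (Bloch, Levine, Beilinson), for separated schemes of finite type over `ℤ`:

* `involution`: `F_∞ ∘ F_∞ = id`;
* `iso`: isomorphic schemes have isomorphic groups, compatibly with `F_∞` and `r`;
* `localization`: the long exact sequences `⋯ → T_m(Z) → T_m(X) → T_m(U) → T_{m-1}(Z) → ⋯` for a closed
  subscheme `Z` of `X` with complement `U`;
* `torus`: `T_m(X)` is a direct factor of `T_{m+1}(X × 𝔾_m)` for affine `X` (same weight `w`);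
* `vertical`: `H = 0` if `X` is integral and not flat over `ℤ` (then `X` is a scheme over a finite field and
  has no complex points). -/
structure IsTheory (D : Groups) : Prop where
  involution : ∀ m X x, (D.T m X).F ((D.T m X).F x) = x
  iso : ∀ {X Y : Sch ℤ}, FT True X → Nonempty (X ≅ Y) → ∀ m, (D.T m X).Same (D.T m Y)
  localization : ∀ {Z X U : Sch ℤ} (a : Z ⟶ X) (b : U ⟶ X), FT True X → IsTriple a b →
    HasLes D.T shiftDown Z X U
  torus : ∀ (B : Type) [CommRing B] [Algebra ℤ B] [Algebra.FiniteType ℤ B] (m : ℤ),
    (D.T m (aff ℤ B)).Factor (D.T (m + 1) (aff ℤ (LaurentPolynomial B)))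
  vertical : ∀ X : Sch ℤ, FT True X → IsIntegral X.left → ¬ Flat X.hom → ∀ m,
    Subsingleton (D.T m X).H

/-- Transfer: for a finite flat surjective morphism `V → U` of integral schemes, `T_m(U)` is a direct
factor of `T_m(V)` (push-forward after pull-back is the multiplication by the degree). -/
def HasTransfers (D : Groups) : Prop :=
  ∀ {V U : Sch ℤ} (f : V ⟶ U), FT True U → IsFinite f.left → Flat f.left → Surjective f.left →
    IsIntegral V.left → IsIntegral U.left → ∀ m, (D.T m U).Factor (D.T m V)

lemma isLoc {D : Groups} (hD : IsTheory D) : IsLoc D.T shiftDown shiftDown.symm where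
  iso hX e m := hD.iso hX e m
  localization a b hX ht := hD.localization a b hX ht
  torus B _ _ _ m := hD.torus B m

lemma regIso_iff {D : Groups} (hD : IsTheory D) (m : ℤ) (X : Sch ℤ) :
    RegIso D m X ↔ (D.T m X).Good := by
  constructor
  · rintro ⟨h1, h2⟩
    refine ⟨h1, h2, le_antisymm ?_ ?_⟩
    · intro x hx
      rw [LinearMap.mem_ker] at hx ⊢
      have h3 : (((D.T m X).F - 1 : Module.End ℝ (D.T m X).H) ^ 2) x =
          x + x - (D.T m X).F x - (D.T m X).F x := by
        rw [pow_two, Module.End.mul_apply, LinearMap.sub_apply, LinearMap.sub_apply, map_sub,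
          hD.involution]
        simp only [Module.End.one_apply]
        abel
      rw [h3] at hx
      rw [LinearMap.sub_apply, Module.End.one_apply]
      have h4 : (2 : ℝ) • ((D.T m X).F x - x) = 0 := by
        rw [two_smul]
        have h5 : (D.T m X).F x - x + ((D.T m X).F x - x) =
            -(x + x - (D.T m X).F x - (D.T m X).F x) := by abel
        rw [h5, hx, neg_zero]
      exact (smul_eq_zero.mp h4).resolve_left two_ne_zero
    · intro x hx
      rw [LinearMap.mem_ker] at hx ⊢
      rw [pow_two, Module.End.mul_apply, hx, map_zero]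
  · rintro ⟨h1, h2, -⟩
    exact ⟨h1, h2⟩

/-- The regulator of `X` is an isomorphism onto `H^F` if and only if Beilinson's statement is true and the
restriction to the generic fibre is injective. -/
lemma regIso_split (D : Groups) (m : ℤ) (X : Sch ℤ) :
    RegIso D m X ↔ Beilinson D m X ∧ Function.Injective (D.res m X) := by
  set ρ := D.res m X with hρ
  set V := intPart D m X
  set v : (ℝ ⊗[ℚ] V) →ₗ[ℝ] (D.T m X).H := regInt D m X with hv
  have hr : ∀ x, (D.T m X).r x = v (ρ.rangeRestrict.baseChange ℝ x) := by
    intro x
    rw [← D.fac, hv, regInt, LinearMap.comp_apply]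
    congr 1
    have h1 : ρ = V.subtype ∘ₗ ρ.rangeRestrict := by
      ext y
      rfl
    conv_lhs => rw [← hρ, h1, LinearMap.baseChange_comp]
    rfl
  have hs : Function.Surjective (ρ.rangeRestrict.baseChange ℝ) :=
    LinearMap.lTensor_surjective ℝ ρ.surjective_rangeRestrict
  have hrange : LinearMap.range (D.T m X).r = LinearMap.range v := by
    ext y
    constructor
    · rintro ⟨x, rfl⟩
      exact ⟨_, (hr x).symm⟩
    · rintro ⟨z, rfl⟩
      obtain ⟨x, rfl⟩ := hs z
      exact ⟨x, hr x⟩
  constructor
  · rintro ⟨h1, h2⟩
    have h3 : Function.Injective ρ := by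
      apply inj_of_baseChange (E := ℝ)
      intro x y hxy
      apply h1
      rw [← D.fac, ← D.fac, ← hρ, hxy]
    have h4 : Function.Bijective (ρ.rangeRestrict.baseChange ℝ) := by
      apply baseChange_bij
      refine ⟨fun x y h => h3 (congrArg Subtype.val h), ρ.surjective_rangeRestrict⟩
    have h5 : Function.Injective v := by
      intro x y hxy
      obtain ⟨x, rfl⟩ := h4.2 x
      obtain ⟨y, rfl⟩ := h4.2 y
      rw [← hr, ← hr] at hxy
      rw [h1 hxy]
    refine ⟨⟨?_, h5, by rw [← hrange, h2]⟩, h3⟩
    have h6 := (D.T m X).finite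
    have h7 : Module.Finite ℝ (ℝ ⊗[ℚ] V) := Module.Finite.of_injective v h5
    rw [← Module.rank_lt_aleph0_iff] at h7 ⊢
    rwa [Module.rank_baseChange, Cardinal.lift_id] at h7
  · rintro ⟨⟨-, h1, h2⟩, h3⟩
    refine ⟨?_, by rw [hrange, h2]⟩
    have h4 : Function.Bijective (ρ.rangeRestrict.baseChange ℝ) := by
      apply baseChange_bij
      refine ⟨fun x y h => h3 (congrArg Subtype.val h), ρ.surjective_rangeRestrict⟩
    intro x y hxy
    rw [hr, hr] at hxy
    exact h4.1 (h1 hxy)

/-- **Theorem.** Let `w < 0` be an integer and let `D` be the groups described at the beginning of the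
file.
(1) The regulator `M ⊗ ℝ → H^F` is an isomorphism in all degrees for all separated schemes of finite type
over `ℤ` if and only if this is so for the closed subschemes of affine spaces over `ℤ` given by systems of
bilinear equations `∑_{(a, b) ∈ E_l} x_a y_b = 0`, `l = 1, …, c`, with at most three terms in every
equation.
(2) By de Jong's theorem on alterations this is the case if and only if (a) for all regular integral flat
schemes `X` proper over `ℤ` and all degrees Beilinson's statement Q1 is true for the generic fibre (in the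
weight `n = dim + 1 - w`) and the motivic cohomology of `X` injects into the one of the generic fibre,
and (b) `CH_w(X, m) ⊗ ℚ = 0` for all `m` and all regular integral schemes `X` proper over `ℤ` and not flat
(smooth projective varieties over finite fields, for instance). -/
theorem result (D : Groups) (hD : IsTheory D) :
    ((∀ X : Sch ℤ, FT True X → ∀ m, RegIso D m X) ↔ ForThreeTerms fun X => ∀ m, RegIso D m X) ∧
    (DeJong → HasTransfers D →
      ((ForThreeTerms fun X => ∀ m, RegIso D m X) ↔
        (∀ X : Sch ℤ, RegularProper X → Flat X.hom →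
          ∀ m, Beilinson D m X ∧ Function.Injective (D.res m X)) ∧
        ∀ X : Sch ℤ, RegularProper X → ¬ Flat X.hom → ∀ m, Subsingleton (D.T m X).M)) := by
  have he : (fun X => ∀ m, RegIso D m X) = AllGood D.T :=
    funext fun X => propext (forall_congr' fun m => regIso_iff hD m X)
  have hc := clo_allGood (isLoc hD)
  have h1 : (∀ X : Sch ℤ, FT True X → ∀ m, RegIso D m X) ↔
      ForThreeTerms fun X => ∀ m, RegIso D m X := by
    rw [← he] at hc
    exact three_iff short_int hc
  refine ⟨h1, fun hJ hTr => ?_⟩
  rw [← h1]
  constructor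
  · intro h
    refine ⟨fun X hX _ m => (regIso_split D m X).mp (h X hX.ft m), fun X hX hf m => ?_⟩
    have h2 := (h X hX.ft m).1
    have h3 := hD.vertical X hX.ft hX.integral hf m
    have h4 : Subsingleton (ℝ ⊗[ℚ] (D.T m X).M) := h2.subsingleton
    refine ⟨fun x y => ?_⟩
    have h5 : Function.Injective (0 : (D.T m X).M →ₗ[ℚ] (D.T m X).M) :=
      inj_of_baseChange (E := ℝ) _ fun a b _ => Subsingleton.elim a b
    exact h5 rfl
  · rintro ⟨ha, hb⟩ X hX
    have hc' : Clo True fun X => ∀ m, RegIso D m X := by
      rw [he]
      exact hc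
    refine hJ (fun X => ∀ m, RegIso D m X) (altClosed_of_clo hc' ?_) ?_ X hX
    · intro V U f hU f1 f2 f3 f4 f5 hV m
      have h2 := (regIso_iff hD m V).mp (hV m)
      exact (regIso_iff hD m U).mpr ((hTr f hU f1 f2 f3 f4 f5 m).good h2)
    · intro Y hY hp hi hr m
      have hRP : RegularProper Y := ⟨hY, hp, hi, hr⟩
      by_cases hf : Flat Y.hom
      · exact (regIso_split D m Y).mpr (ha Y hRP hf m)
      · have h2 := hb Y hRP hf m
        have h3 := hD.vertical Y hY hi hf m
        have h4 : Subsingleton (ℝ ⊗[ℚ] (D.T m Y).M) := by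
          refine ⟨fun a b => ?_⟩
          have h5 : ∀ a : ℝ ⊗[ℚ] (D.T m Y).M, a = 0 := by
            intro a
            induction a using TensorProduct.induction_on with
            | zero => rfl
            | tmul x y => rw [Subsingleton.elim y 0, TensorProduct.tmul_zero]
            | add x y hx hy => rw [hx, hy, add_zero]
          rw [h5 a, h5 b]
        refine ⟨fun a b _ => Subsingleton.elim a b, ?_⟩
        ext x
        rw [Subsingleton.elim x 0]
        simp

end Pool.Agent.Results.MP_15b3df_nt.RegulatorsAboveDimension
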