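import Pool.Agent.U317.UV.CloReg

/-!
# Beilinson's conjecture in weight `d` and systems of bilinear equations

For a separated scheme `𝒳` of finite type over `ℤ` and `m ∈ ℤ` let `T m 𝒳` be the following object:

* `M = CH_0(𝒳, m) ⊗ ℚ = K'_m(𝒳)^{(0)}`, the rational higher Chow group of zero-cycles;
* `H = B_m(𝒳)`, the dual of `H^m` of the fibre of `RΓ_c(𝒳, ℝ) → RΓ_c(𝒳(ℂ), ℝ)^{Gal(ℂ/ℝ)}` (the first
  complex computes the compactly supported cohomology of the constant sheaf in the eh-topology), the real
  Arakelov-type homology of Flach and Morin;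
* the regulator `r : M ⊗ ℝ → H`; the endomorphism `F` is the identity here.

If `𝒳` is regular, connected, flat and proper over `ℤ` of dimension `d` with generic fibre `X`, then
`M = H^{2d-m}(𝒳, ℚ(d))`, the group `G m 𝒳` is `H^{2d-m}(X, ℚ(d))`, `res` is the restriction,
`D m 𝒳 = H_D^{2d-m}(X/ℝ, ℝ(d))` is Deligne cohomology and `reg` is Beilinson's regulator. The natural map
`κ : B_m → D m` is an isomorphism for `m ≥ 2`, there is an exact sequence `0 → B_1 → D 1 → CH^0(X)^*_ℝ → 0`,
and `B_m = 0` for `m ≤ 0`. So the case `m = i + 1` is about the map `ρ^i_∞` of the question.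
-/

set_option autoImplicit false

open CategoryTheory AlgebraicGeometry Pool.Agent.Y116.UV Pool.Agent.Z125.UN Pool.Agent.Q193.LT
  Pool.Agent.Q282.UK Pool.Agent.Q282.UZ Pool.Agent.U317.UV
open scoped TensorProduct

namespace Pool.Agent.Results.MP_a09a03_nt.BilinearRegulators

/-- The objects `T m 𝒳 = (M, B, r)` of the arithmetic scheme, the motivic groups `G` of the generic fibre,
the Deligne groups `D`, restriction `res`, Beilinson's regulator `reg`, and the map `κ : B → D`. -/
structure Groups where
  /-- zero-cycles and their target -/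
  T : ℤ → Sch ℤ → Obj ℝ
  /-- the motivic groups of the generic fibre -/
  G : ℤ → Sch ℤ → ModuleCat.{0} ℚ
  /-- real Deligne cohomology of the generic fibre -/
  D : ℤ → Sch ℤ → ModuleCat.{0} ℝ
  /-- restriction to the generic fibre -/
  res : ∀ m X, (T m X).M →ₗ[ℚ] G m X
  /-- Beilinson's regulator -/
  reg : ∀ m X, (ℝ ⊗[ℚ] G m X) →ₗ[ℝ] D m X
  /-- the natural map `B_m → D m` -/
  kap : ∀ m X, (T m X).H →ₗ[ℝ] D m X
  fac : ∀ m X x, reg m X ((res m X).baseChange ℝ x) = kap m X ((T m X).r x)

/-- The integral part `im(res)` of the motivic group of the generic fibre. -/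
def intPart (D : Groups) (m : ℤ) (X : Sch ℤ) : Submodule ℚ (D.G m X) := LinearMap.range (D.res m X)

/-- The regulator `ρ_∞` on the integral part, with real coefficients: the map `ρ^{m-1}_∞`. -/
noncomputable def regInt (D : Groups) (m : ℤ) (X : Sch ℤ) :
    (ℝ ⊗[ℚ] intPart D m X) →ₗ[ℝ] D.D m X :=
  D.reg m X ∘ₗ (intPart D m X).subtype.baseChange ℝ

/-- The subspace `S` is the kernel of a surjective linear form `W → ℝ`, i.e. there is an exact sequence
`0 → S → W → ℝ → 0`. -/
def IsHyperplane (W : ModuleCat.{0} ℝ) (S : Submodule ℝ W) : Prop :=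
  ∃ e : W →ₗ[ℝ] ℝ, Function.Surjective e ∧ LinearMap.ker e = S

/-- Part (a) of Q1: `ρ^i_∞` is bijective for `i ≥ 1` (here `m = i + 1`). -/
def PartA (D : Groups) (X : Sch ℤ) : Prop :=
  ∀ m : ℤ, 2 ≤ m → Function.Bijective (regInt D m X)

/-- Part (b) of Q1: there is an exact sequence `0 → M^{2d-1} → D^{2d-1} → ℝ → 0` with first map `ρ^0_∞`
(`CH^0(X)^*_ℝ = ℝ`, since `X` is connected). -/
def PartB (D : Groups) (X : Sch ℤ) : Prop :=
  Function.Injective (regInt D 1 X) ∧ IsHyperplane (D.D 1 X) (LinearMap.range (regInt D 1 X))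

/-- **Beilinson's statement Q1** for `X`. -/
def Q1 (D : Groups) (X : Sch ℤ) : Prop := PartA D X ∧ PartB D X

/-- The scheme `X` is integral (equivalently: connected), regular and proper over `ℤ`. -/
structure RegularProper (X : Sch ℤ) : Prop where
  ft : FT True X
  proper : IsProper X.hom
  integral : IsIntegral X.left
  regular : ∀ x : X.left, IsRegularLocalRing (X.left.presheaf.stalk x)

/-- the shift of the degree by `-1` -/
def shiftDown : ℤ ≃ ℤ where
  toFun m := m - 1
  invFun m := m + 1
  left_inv m := by ring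
  right_inv m := by ring

/-- Properties of the groups for separated schemes of finite type over `ℤ`: `F = id`, invariance under
isomorphism, localization sequences, `T_m(X)` is a direct factor of `T_{m+1}(X × 𝔾_m)` for affine `X`, and
there is nothing in negative degrees. -/
structure IsTheory (D : Groups) : Prop where
  one : ∀ m X x, (D.T m X).F x = x
  iso : ∀ {X Y : Sch ℤ}, FT True X → Nonempty (X ≅ Y) → ∀ m, (D.T m X).Same (D.T m Y)
  localization : ∀ {Z X U : Sch ℤ} (a : Z ⟶ X) (b : U ⟶ X), FT True X → IsTriple a b →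
    HasLes D.T shiftDown Z X U
  torus : ∀ (B : Type) [CommRing B] [Algebra ℤ B] [Algebra.FiniteType ℤ B] (m : ℤ),
    (D.T m (aff ℤ B)).Factor (D.T (m + 1) (aff ℤ (LaurentPolynomial B)))
  negative : ∀ (X : Sch ℤ) (m : ℤ), FT True X → m < 0 →
    Subsingleton (D.T m X).M ∧ Subsingleton (D.T m X).H

/-- Known facts if `X` is flat over `ℤ`: `κ` is bijective for `m ≥ 2` and there is an exact sequence
`0 → B_1 → D 1 → ℝ → 0`; `CH_0(X) ⊗ ℚ = 0` (Bloch, Kato and Saito) and `B_0 = 0`. -/
structure KnownFlat (D : Groups) (X : Sch ℤ) : Prop where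
  high : ∀ m : ℤ, 2 ≤ m → Function.Bijective (D.kap m X)
  inj : Function.Injective (D.kap 1 X)
  one : IsHyperplane (D.D 1 X) (LinearMap.range (D.kap 1 X))
  zero : Subsingleton (D.T 0 X).M
  zero' : Subsingleton (D.T 0 X).H

/-- Known facts if `X` is not flat over `ℤ`, i.e. is a scheme over a finite field:
`CH_0(X) ⊗ ℝ = ℝ = B_0` (the degree), and `B_m = 0` for `m ≥ 1`. -/
structure KnownVertical (D : Groups) (X : Sch ℤ) : Prop where
  degree : Function.Bijective (D.T 0 X).r
  vertical : ∀ m : ℤ, 1 ≤ m → Subsingleton (D.T m X).H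

/-- Known facts on the regular integral schemes proper over `ℤ`. -/
structure Known (D : Groups) : Prop where
  flat : ∀ X : Sch ℤ, RegularProper X → Flat X.hom → KnownFlat D X
  vert : ∀ X : Sch ℤ, RegularProper X → ¬ Flat X.hom → KnownVertical D X

/-- Transfer: for a finite flat surjective morphism `V → U` of integral schemes, `T_m(U)` is a direct
factor of `T_m(V)`. -/
def HasTransfers (D : Groups) : Prop :=
  ∀ {V U : Sch ℤ} (f : V ⟶ U), FT True U → IsFinite f.left → Flat f.left → Surjective f.left →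
    IsIntegral V.left → IsIntegral U.left → ∀ m, (D.T m U).Factor (D.T m V)

/-- The regulator `CH_0(X, m) ⊗ ℝ → B_m(X)` is bijective for all `m`. -/
def RegIso (D : Groups) (X : Sch ℤ) : Prop := ∀ m, Function.Bijective (D.T m X).r

/-- **Flach's injectivity**: `H^{2d-m}(𝒳, ℚ(d)) → H^{2d-m}(X, ℚ(d))` is injective for `m ≥ 1`. -/
def Flach (D : Groups) (X : Sch ℤ) : Prop := ∀ m : ℤ, 1 ≤ m → Function.Injective (D.res m X)

/-- `CH_0(X, m) ⊗ ℚ = 0` for `m ≥ 1`. -/
def NoCycles (D : Groups) (X : Sch ℤ) : Prop := ∀ m : ℤ, 1 ≤ m → Subsingleton (D.T m X).M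

lemma isLoc {D : Groups} (hD : IsTheory D) : IsLoc D.T shiftDown shiftDown.symm where
  iso hX e m := hD.iso hX e m
  localization a b hX ht := hD.localization a b hX ht
  torus B _ _ _ m := hD.torus B m

lemma good_iff {D : Groups} (hD : IsTheory D) (m : ℤ) (X : Sch ℤ) :
    (D.T m X).Good ↔ Function.Bijective (D.T m X).r := by
  have h1 : (D.T m X).F - 1 = 0 := by
    ext x
    rw [LinearMap.sub_apply, hD.one, Module.End.one_apply, sub_self]
    rfl
  unfold Obj.Good
  rw [h1, pow_two, mul_zero, LinearMap.ker_zero]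
  exact ⟨fun h => ⟨h.1, LinearMap.range_eq_top.mp h.2.1⟩,
    fun h => ⟨h.1, LinearMap.range_eq_top.mpr h.2, rfl⟩⟩

lemma regIso_eq {D : Groups} (hD : IsTheory D) : RegIso D = AllGood D.T :=
  funext fun X => propext (forall_congr' fun m => (good_iff hD m X).symm)

section linear

variable {V W : Type} [AddCommGroup V] [Module ℝ V] [AddCommGroup W] [Module ℝ W]

/-- Two subspaces which are kernels of linear forms and one of which contains the other are equal, if
both forms are nonzero. -/
lemma eq_of_ker {S : Submodule ℝ W} (e f : W →ₗ[ℝ] ℝ)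
    (hf : Function.Surjective f) (h : LinearMap.ker e ≤ LinearMap.ker f) (hS : LinearMap.ker f = S) :
    LinearMap.ker e = S := by
  rw [← hS]
  refine le_antisymm h fun x hx => ?_
  obtain ⟨y, hy⟩ := hf 1
  by_contra hne
  have hex : e x ≠ 0 := hne
  have h1 : y - (e y / e x) • x ∈ LinearMap.ker e := by
    rw [LinearMap.mem_ker, map_sub, map_smul, smul_eq_mul, div_mul_cancel₀ _ hex, sub_self]
  have h2 := h h1
  rw [LinearMap.mem_ker, map_sub, map_smul, LinearMap.mem_ker.mp hx, smul_zero, sub_zero, hy] at h2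
  exact one_ne_zero h2

end linear

lemma split (D : Groups) (m : ℤ) (X : Sch ℤ) :
    ∀ x, D.kap m X ((D.T m X).r x) =
      regInt D m X ((D.res m X).rangeRestrict.baseChange ℝ x) := by
  intro x
  rw [← D.fac, regInt, LinearMap.comp_apply]
  congr 1
  have h1 : D.res m X = (intPart D m X).subtype ∘ₗ (D.res m X).rangeRestrict := by
    ext y
    rfl
  conv_lhs => rw [h1, LinearMap.baseChange_comp]
  rfl

lemma surj (D : Groups) (m : ℤ) (X : Sch ℤ) :
    Function.Surjective ((D.res m X).rangeRestrict.baseChange ℝ) :=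
  LinearMap.lTensor_surjective ℝ (D.res m X).surjective_rangeRestrict

lemma range_eq (D : Groups) (m : ℤ) (X : Sch ℤ) :
    LinearMap.range (D.kap m X ∘ₗ (D.T m X).r) = LinearMap.range (regInt D m X) := by
  ext y
  constructor
  · rintro ⟨x, rfl⟩
    exact ⟨_, (split D m X x).symm⟩
  · rintro ⟨z, rfl⟩
    obtain ⟨x, rfl⟩ := surj D m X z
    exact ⟨x, split D m X x⟩

lemma inj_iff (D : Groups) (m : ℤ) (X : Sch ℤ) (hk : Function.Injective (D.kap m X)) :
    Function.Injective (D.T m X).r ↔
      Function.Injective (regInt D m X) ∧ Function.Injective (D.res m X) := by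
  constructor
  · intro h1
    have h3 : Function.Injective (D.res m X) := by
      apply inj_of_baseChange (E := ℝ)
      intro x y hxy
      apply h1
      apply hk
      rw [← D.fac, ← D.fac, hxy]
    have h4 : Function.Bijective ((D.res m X).rangeRestrict.baseChange ℝ) := by
      apply baseChange_bij
      refine ⟨fun x y h => h3 (congrArg Subtype.val h), (D.res m X).surjective_rangeRestrict⟩
    refine ⟨fun x y hxy => ?_, h3⟩
    obtain ⟨x, rfl⟩ := h4.2 x
    obtain ⟨y, rfl⟩ := h4.2 y
    rw [← split, ← split] at hxy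
    rw [h1 (hk hxy)]
  · rintro ⟨h1, h3⟩
    have h4 : Function.Bijective ((D.res m X).rangeRestrict.baseChange ℝ) := by
      apply baseChange_bij
      refine ⟨fun x y h => h3 (congrArg Subtype.val h), (D.res m X).surjective_rangeRestrict⟩
    intro x y hxy
    apply h4.1
    apply h1
    rw [← split, ← split, hxy]

lemma high_iff {D : Groups} {m : ℤ} {X : Sch ℤ} (hk : Function.Bijective (D.kap m X)) :
    Function.Bijective (D.T m X).r ↔
      Function.Bijective (regInt D m X) ∧ Function.Injective (D.res m X) := by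
  have h1 := inj_iff D m X hk.1
  have h2 : Function.Surjective (D.T m X).r ↔ Function.Surjective (regInt D m X) := by
    rw [← LinearMap.range_eq_top, ← LinearMap.range_eq_top, ← range_eq, LinearMap.range_comp]
    constructor
    · intro h
      rw [h, Submodule.map_top, LinearMap.range_eq_top]
      exact hk.2
    · intro h
      rw [LinearMap.range_eq_top]
      intro y
      have h3 : D.kap m X y ∈ (⊤ : Submodule ℝ (D.D m X)) := trivial
      rw [← h] at h3
      obtain ⟨z, ⟨x, rfl⟩, hx⟩ := h3
      exact ⟨x, hk.1 hx⟩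
  constructor
  · rintro ⟨ha, hb⟩
    exact ⟨⟨(h1.mp ha).1, h2.mp hb⟩, (h1.mp ha).2⟩
  · rintro ⟨⟨ha, hb⟩, hc⟩
    exact ⟨h1.mpr ⟨ha, hc⟩, h2.mpr hb⟩

lemma one_iff {D : Groups} {X : Sch ℤ} (hk : Function.Injective (D.kap 1 X))
    (he : IsHyperplane (D.D 1 X) (LinearMap.range (D.kap 1 X))) :
    Function.Bijective (D.T 1 X).r ↔ PartB D X ∧ Function.Injective (D.res 1 X) := by
  have h1 := inj_iff D 1 X hk
  obtain ⟨e, he1, he2⟩ := he
  constructor
  · rintro ⟨ha, hb⟩
    refine ⟨⟨(h1.mp ha).1, e, he1, ?_⟩, (h1.mp ha).2⟩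
    rw [he2, ← range_eq, LinearMap.range_comp, LinearMap.range_eq_top.mpr hb, Submodule.map_top]
  · rintro ⟨⟨ha, f, hf1, hf2⟩, hc⟩
    refine ⟨h1.mpr ⟨ha, hc⟩, fun y => ?_⟩
    have h2 : LinearMap.ker f ≤ LinearMap.ker e := by
      rw [hf2, he2, ← range_eq, LinearMap.range_comp]
      exact LinearMap.map_le_range
    have h3 : LinearMap.ker f = LinearMap.range (D.kap 1 X) := eq_of_ker f e he1 h2 he2
    have h4 : D.kap 1 X y ∈ LinearMap.range (D.kap 1 X) := ⟨y, rfl⟩
    rw [← h3, hf2, ← range_eq] at h4
    obtain ⟨x, hx⟩ := h4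
    exact ⟨x, hk hx⟩

lemma flat_iff {D : Groups} (hD : IsTheory D) (hK : Known D) {X : Sch ℤ} (hX : RegularProper X)
    (hf : Flat X.hom) : RegIso D X ↔ Q1 D X ∧ Flach D X := by
  have h1 := one_iff (hK.flat X hX hf).inj (hK.flat X hX hf).one
  constructor
  · intro h
    refine ⟨⟨fun m hm => ((high_iff ((hK.flat X hX hf).high m hm)).mp (h m)).1, (h1.mp (h 1)).1⟩, ?_⟩
    intro m hm
    rcases eq_or_lt_of_le hm with rfl | hm
    · exact (h1.mp (h 1)).2
    · exact ((high_iff ((hK.flat X hX hf).high m (by omega))).mp (h m)).2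
  · rintro ⟨⟨ha, hb⟩, hc⟩ m
    have hsub : ∀ m, Subsingleton (D.T m X).M → Subsingleton (D.T m X).H →
        Function.Bijective (D.T m X).r := by
      intro m hM hH
      have h5 : ∀ a : ℝ ⊗[ℚ] (D.T m X).M, a = 0 := by
        intro a
        induction a using TensorProduct.induction_on with
        | zero => rfl
        | tmul x y => rw [Subsingleton.elim y 0, TensorProduct.tmul_zero]
        | add x y hx hy => rw [hx, hy, add_zero]
      exact ⟨fun a b _ => by rw [h5 a, h5 b], fun y => ⟨0, Subsingleton.elim _ _⟩⟩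
    rcases lt_trichotomy m 0 with hm | rfl | hm
    · exact hsub m (hD.negative X m hX.ft hm).1 (hD.negative X m hX.ft hm).2
    · exact hsub 0 (hK.flat X hX hf).zero (hK.flat X hX hf).zero'
    · rcases eq_or_lt_of_le (show 1 ≤ m by omega) with rfl | hm2
      · exact h1.mpr ⟨hb, hc 1 le_rfl⟩
      · exact (high_iff ((hK.flat X hX hf).high m (by omega))).mpr ⟨ha m (by omega), hc m (by omega)⟩

lemma vertical_iff {D : Groups} (hD : IsTheory D) (hK : Known D) {X : Sch ℤ}
    (hX : RegularProper X) (hf : ¬ Flat X.hom) : RegIso D X ↔ NoCycles D X := by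
  constructor
  · intro h m hm
    have h2 := (h m).1
    have h3 := (hK.vert X hX hf).vertical m hm
    have h5 : Function.Injective (0 : (D.T m X).M →ₗ[ℚ] (D.T m X).M) := by
      have h4 : Subsingleton (ℝ ⊗[ℚ] (D.T m X).M) := h2.subsingleton
      exact inj_of_baseChange (E := ℝ) _ fun a b _ => Subsingleton.elim a b
    exact ⟨fun x y => h5 rfl⟩
  · intro h m
    rcases lt_trichotomy m 0 with hm | rfl | hm
    · have hM := (hD.negative X m hX.ft hm).1
      have hH := (hD.negative X m hX.ft hm).2
      have h5 : ∀ a : ℝ ⊗[ℚ] (D.T m X).M, a = 0 := by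
        intro a
        induction a using TensorProduct.induction_on with
        | zero => rfl
        | tmul x y => rw [Subsingleton.elim y 0, TensorProduct.tmul_zero]
        | add x y hx hy => rw [hx, hy, add_zero]
      exact ⟨fun a b _ => by rw [h5 a, h5 b], fun y => ⟨0, Subsingleton.elim _ _⟩⟩
    · exact (hK.vert X hX hf).degree
    · have hM := h m (by omega)
      have hH := (hK.vert X hX hf).vertical m (by omega)
      have h5 : ∀ a : ℝ ⊗[ℚ] (D.T m X).M, a = 0 := by
        intro a
        induction a using TensorProduct.induction_on with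
        | zero => rfl
        | tmul x y => rw [Subsingleton.elim y 0, TensorProduct.tmul_zero]
        | add x y hx hy => rw [hx, hy, add_zero]
      exact ⟨fun a b _ => by rw [h5 a, h5 b], fun y => ⟨0, Subsingleton.elim _ _⟩⟩

/-- **Theorem.** (1) The regulator `CH_0(X, m) ⊗ ℝ → B_m(X)` is bijective in all degrees for all separated
schemes of finite type over `ℤ` if and only if this is so for the closed subschemes of affine spaces over
`ℤ` given by systems of bilinear equations `∑_{(a, b) ∈ E_l} x_a y_b = 0`, `l = 1, …, c`, with at most three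
terms in every equation.
(2) By de Jong's theorem on alterations and the known facts this is the case if and only if Beilinson's
statement Q1 and Flach's injectivity are true for all connected regular schemes which are flat and proper
over `ℤ`, and `CH_0(X, m) ⊗ ℚ = 0`, `m ≥ 1`, for the regular connected proper schemes over finite fields. -/
theorem result (D : Groups) (hD : IsTheory D) :
    ((∀ X : Sch ℤ, FT True X → RegIso D X) ↔ ForThreeTerms (RegIso D)) ∧
    (DeJong → HasTransfers D → Known D →
      (ForThreeTerms (RegIso D) ↔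
        (∀ X : Sch ℤ, RegularProper X → Flat X.hom → Q1 D X ∧ Flach D X) ∧
        ∀ X : Sch ℤ, RegularProper X → ¬ Flat X.hom → NoCycles D X)) := by
  have hc : Clo True (RegIso D) := by
    rw [regIso_eq hD]
    exact clo_allGood (isLoc hD)
  have h1 : (∀ X : Sch ℤ, FT True X → RegIso D X) ↔ ForThreeTerms (RegIso D) :=
    three_iff short_int hc
  refine ⟨h1, fun hJ hTr hK => ?_⟩
  rw [← h1]
  constructor
  · intro h
    exact ⟨fun X hX hf => (flat_iff hD hK hX hf).mp (h X hX.ft),
      fun X hX hf => (vertical_iff hD hK hX hf).mp (h X hX.ft)⟩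
  · rintro ⟨ha, hb⟩ X hX
    refine hJ (RegIso D) (altClosed_of_clo hc ?_) ?_ X hX
    · intro V U f hU f1 f2 f3 f4 f5 hV m
      exact (good_iff hD m U).mp
        ((hTr f hU f1 f2 f3 f4 f5 m).good ((good_iff hD m V).mpr (hV m)))
    · intro Y hY hp hi hr
      have hRP : RegularProper Y := ⟨hY, hp, hi, hr⟩
      by_cases hf : Flat Y.hom
      · exact (flat_iff hD hK hRP hf).mpr (ha Y hRP hf)
      · exact (vertical_iff hD hK hRP hf).mpr (hb Y hRP hf)

end Pool.Agent.Results.MP_a09a03_nt.BilinearRegulators
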